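import Pool.Agent.P8H50.NK.Stm2

/-!
# Project NK, package ASP: the linear span of a point
-/

set_option autoImplicit false

namespace Pool.Agent.P8H71.NK

open FF Pool.Agent.W603.LV Pool.Agent.W603.PV Pool.Agent.P8H50.NK

/-- constant combinations do not decrease the minimum of the orders -/
theorem pord_mono {k K : Type} [Field k] [Field K] [Algebra k K] {n p : ℕ} (P : Place k K)
    (x : Fin (n + 1) → K) (f : Fin (p + 1) → K) (A : Fin (n + 1) → Fin (p + 1) → k)
    (h : ∀ i, x i = ∑ l, algebraMap k K (A i l) * f l) (hx : ∃ j, x j ≠ 0) :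
    pord P f ≤ pord P x := by
  obtain ⟨j, hj, hj'⟩ := exists_pord P hx
  have h1 : Ge P (pord P f) (x j) := by
    rw [h j]
    refine Ge.sum _ _ fun l _ => ?_
    have h2 := (Ge.const (P := P) (A j l)).mul (ge_pord P f l)
    rwa [zero_add] at h2
  rcases h1 with h1 | h1
  · exact absurd h1 hj
  · rwa [hj'] at h1

/-- package ASP -/
theorem asp : S_ASP := by
  classical
  intro k K _ _ _ _ _ _ n x hx
  have hx' : ∃ j, x j ≠ 0 := by
    by_contra h
    push Not at h
    exact hx (funext h)
  obtain ⟨κ, a, ha, hspan, hli⟩ := exists_linearIndependent' k x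
  have : Finite κ := Finite.of_injective a ha
  let _ : Fintype κ := Fintype.ofFinite κ
  have : Nonempty κ := by
    by_contra h
    rw [not_nonempty_iff] at h
    obtain ⟨j, hj⟩ := hx'
    have h1 : x j ∈ Submodule.span k (Set.range x) := Submodule.subset_span ⟨j, rfl⟩
    rw [← hspan, Set.range_eq_empty, Submodule.span_empty, Submodule.mem_bot] at h1
    exact hj h1
  obtain ⟨p, hp⟩ : ∃ p, Fintype.card κ = p + 1 :=
    ⟨Fintype.card κ - 1, by have := Fintype.card_pos (α := κ); omega⟩
  let e : Fin (p + 1) ≃ κ := (Fintype.equivFinOfCardEq hp).symm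
  let f : Fin (p + 1) → K := fun l => x (a (e l))
  have hfli : LinearIndependent k f := hli.comp e e.injective
  have hmem : ∀ i, x i ∈ Submodule.span k (Set.range f) := by
    intro i
    have h1 : x i ∈ Submodule.span k (Set.range x) := Submodule.subset_span ⟨i, rfl⟩
    rw [← hspan] at h1
    have h2 : Set.range (x ∘ a) = Set.range f := by
      change _ = Set.range ((x ∘ a) ∘ e)
      rw [e.surjective.range_comp]
    rwa [h2] at h1
  have hA : ∀ i, ∃ A : Fin (p + 1) → k, ∑ l, A l • f l = x i := fun i =>
    (Submodule.mem_span_range_iff_exists_fun k).1 (hmem i)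
  choose A hA using hA
  have hA' : ∀ i, x i = ∑ l, algebraMap k K (A i l) * f l := by
    intro i
    rw [← hA i]
    exact Finset.sum_congr rfl fun l _ => Algebra.smul_def _ _
  have hdel : ∀ l l', A (a (e l)) l' = if l = l' then 1 else 0 := by
    intro l
    have h1 : ∑ l', (A (a (e l)) l' - if l = l' then 1 else 0) • f l' = 0 := by
      simp_rw [sub_smul]
      rw [Finset.sum_sub_distrib, hA]
      simp [f]
    have h2 := Fintype.linearIndependent_iff.1 hfli _ h1
    intro l'
    exact sub_eq_zero.1 (h2 l')
  have hpn : p ≤ n := by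
    have h1 := Fintype.card_le_of_injective a ha
    rw [hp, Fintype.card_fin] at h1
    omega
  let B : Fin (p + 1) → Fin (n + 1) → k := fun l i => if i = a (e l) then 1 else 0
  have hf' : ∃ j, f j ≠ 0 := ⟨0, hfli.ne_zero 0⟩
  have hpord : ∀ P : Place k K, pord P f = pord P x := by
    intro P
    refine le_antisymm (pord_mono P x f A hA' hx') ?_
    refine pord_mono P f x B (fun l => ?_) hf'
    simp [B, f]
  have hpht : pht k f = pht k x := by
    unfold pht
    rw [finsum_congr fun P => hpord P]
  refine ⟨p, f, A, B, hfli, hpn, hA', fun l l' => ?_, hpord, hpht, ?_⟩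
  · simp only [B, ite_mul, one_mul, zero_mul, Finset.sum_ite_eq', Finset.mem_univ, if_true]
    exact hdel l l'
  · intro hp0
    subst hp0
    have h0 : ∀ P : Place k K, pord P f = P.ord (f 0) := by
      intro P
      obtain ⟨j, hj, hj'⟩ := exists_pord P hf'
      have hj0 : j = 0 := by
        apply Fin.ext
        have := j.2
        simp only [Fin.val_zero]
        omega
      rw [← hj', hj0]
    refine ⟨?_, f 0, fun i => A i 0, fun i => ?_⟩
    · rw [← hpht]
      unfold pht
      rw [finsum_congr fun P => h0 P, sum_ord, neg_zero]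
    · rw [hA' i]
      simp [mul_comm]

end Pool.Agent.P8H71.NK
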